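import Mathlib

/-! # An infinite minimal degree-sequence-forcing set `D(G)` -/

open Finset

namespace Pool.Agent.Results.MP_a83c81_co.InfiniteMinimal

open scoped Classical

/-- The degree sequence of a finite graph: the list of its vertex degrees in non-increasing
order. -/
noncomputable def degSeq {V : Type} [Fintype V] (H : SimpleGraph V) : List ℕ :=
  (Finset.univ.val.map (fun v => H.degree v)).sort (· ≥ ·)

/-- `H ∈ P(G)`: some graph `H'` with the same degree sequence as `H` (hence, without loss of
generality, on the same vertex set) has an induced subgraph isomorphic to `G`. -/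
def InP {α V : Type} [Fintype V] (G : SimpleGraph α) (H : SimpleGraph V) : Prop :=
  ∃ H' : SimpleGraph V, degSeq H' = degSeq H ∧ Nonempty (G ↪g H')

/-- `H ∈ D(G)`: `H` is in `P(G)` and no proper induced subgraph of `H` is in `P(G)`. -/
def InD {α V : Type} [Fintype V] (G : SimpleGraph α) (H : SimpleGraph V) : Prop :=
  InP G H ∧ ∀ W : Set V, W ≠ Set.univ → ¬ InP G (H.induce W)

/-! ### Defects -/

section Defects

variable {V : Type} [Fintype V]

/-- the defect of the ordered pair `p` with respect to the potential `f` -/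
noncomputable def dd (Γ : SimpleGraph V) (f : V → ℤ) (p : V × V) : ℤ :=
  if p.1 = p.2 then 0 else
    if Γ.Adj p.1 p.2 then max (-(f p.1 + f p.2)) 0 else max (f p.1 + f p.2) 0

theorem dd_nonneg (Γ : SimpleGraph V) (f : V → ℤ) (p : V × V) : 0 ≤ dd Γ f p := by
  unfold dd; split_ifs <;> simp

theorem sum_adj (Γ : SimpleGraph V) (f : V → ℤ) :
    ∑ p : V × V, (if Γ.Adj p.1 p.2 then f p.1 + f p.2 else 0) =
      2 * ∑ v, f v * (Γ.degree v : ℤ) := by
  have h1 : ∀ g : V → ℤ, ∑ u, ∑ v, (if Γ.Adj u v then g u else 0) =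
      ∑ u, g u * (Γ.degree u : ℤ) := by
    intro g
    refine sum_congr rfl fun u _ => ?_
    rw [← Finset.sum_filter, sum_const, nsmul_eq_mul, mul_comm]
    congr 2
    rw [← SimpleGraph.card_neighborFinset_eq_degree]
    congr 1
    ext v; simp
  have h2 : ∑ u, ∑ v, (if Γ.Adj u v then f v else 0) = ∑ u, f u * (Γ.degree u : ℤ) := by
    rw [sum_comm]
    rw [← h1 f]
    refine sum_congr rfl fun u _ => sum_congr rfl fun v _ => ?_
    simp only [Γ.adj_comm v u]
  rw [Fintype.sum_prod_type]
  have h3 : ∀ u v, (if Γ.Adj u v then f u + f v else 0) =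
      (if Γ.Adj u v then f u else 0) + (if Γ.Adj u v then f v else 0) := by
    intro u v; split_ifs <;> simp
  simp only [h3, sum_add_distrib]
  rw [h1 f, h2]; ring

/-- The total defect depends only on the degrees. -/
theorem TD_eq (Γ Γ' : SimpleGraph V) (hdeg : ∀ v, Γ.degree v = Γ'.degree v) (f : V → ℤ) :
    ∑ p, dd Γ f p = ∑ p, dd Γ' f p := by
  have h : ∀ (Δ : SimpleGraph V), ∑ p, dd Δ f p =
      ∑ p : V × V, (if p.1 = p.2 then 0 else max (f p.1 + f p.2) 0) -
        2 * ∑ v, f v * (Δ.degree v : ℤ) := by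
    intro Δ
    rw [← sum_adj, ← sum_sub_distrib]
    refine sum_congr rfl fun p _ => ?_
    unfold dd
    by_cases h1 : p.1 = p.2
    · simp [h1]
    · by_cases h2 : Δ.Adj p.1 p.2
      · simp only [h1, h2, if_false, if_true]
        rcases le_total 0 (f p.1 + f p.2) with h | h
        · rw [max_eq_right (by omega), max_eq_left h]; ring
        · rw [max_eq_left (by omega), max_eq_right h]; ring
      · simp [h1, h2]
  rw [h Γ, h Γ']
  simp only [hdeg]

end Defects

/-! ### The graphs -/

/-- the nine clique vertices of `G` -/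
inductive GRow : Type
  | a (e : Bool) | b (e : Bool) | i | a' (e : Bool) | b' (e : Bool)
  deriving DecidableEq, Fintype

/-- adjacency between the fixed clique vertices and the independent vertices, in `H`
(`fl = false`) and in `H'` (`fl = true`) -/
def base (fl : Bool) (t : ℕ) : GRow → ℕ → Prop
  | .a _, p => p = 0 ∨ p = 1
  | .b _, p => p = 0 ∨ p = 2
  | .i, p => if fl then (p = 1 ∨ p = 2 ∨ p = t + 5) else p < 3
  | .a' _, p => p ≤ t + 3
  | .b' _, p => p < t + 3 ∨ p = t + 4

/-- the exceptional missing position of the chain vertex `s` -/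
def miss (s : ℕ) : ℕ := if s = 0 then 0 else s + 2

/-- the exceptional extra position of the chain vertex `s` -/
def extra (t s : ℕ) : ℕ := if s = t then t + 5 else s + 3

/-- adjacency between clique vertices and independent vertices -/
def mat (fl : Bool) (t : ℕ) : GRow ⊕ Fin (t + 1) → ℕ → Prop
  | .inl g, p => base fl t g p
  | .inr s, p => if fl then p < s.val + 3 else (p < s.val + 3 ∧ p ≠ miss s.val) ∨ p = extra t s.val

/-- the split graph of a 0-1 matrix -/
def split {R C : Type} (M : R → C → Prop) : SimpleGraph (R ⊕ C) where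
  Adj x y := match x, y with
    | .inl r, .inl r' => r ≠ r'
    | .inl r, .inr c => M r c
    | .inr c, .inl r => M r c
    | .inr _, .inr _ => False
  symm := by
    constructor
    rintro (r | c) (r' | c') h
    · exact Ne.symm h
    · exact h
    · exact h
    · exact h
  loopless := by
    constructor
    rintro (r | c) h
    · exact h rfl
    · exact h

/-- the vertex set of `H_t` -/
abbrev VT (t : ℕ) : Type := (GRow ⊕ Fin (t + 1)) ⊕ Fin (t + 6)

/-- `H_t` (`fl = false`) and `H_t'` (`fl = true`) -/
def HH (fl : Bool) (t : ℕ) : SimpleGraph (VT t) := split (fun r (p : Fin (t + 6)) => mat fl t r p.val)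

/-- the graph `G` -/
def GG : SimpleGraph (GRow ⊕ Fin 6) := split (fun g (p : Fin 6) => base true 0 g p.val)


/-! ### `G` is induced in `H_t'` -/

/-- the embedding of `G` in `H_t'` -/
def embGG (t : ℕ) : GG ↪g HH true t where
  toFun := fun x => match x with
    | .inl g => .inl (.inl g)
    | .inr q => .inr ⟨if q.val < 3 then q.val else q.val + t, by split_ifs <;> omega⟩
  inj' := by
    rintro (g | q) (g' | q') h
    · simpa using h
    · simp at h
    · simp at h
    · simp only [Sum.inr.injEq, Fin.mk.injEq] at h ⊢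
      ext
      split_ifs at h <;> omega
  map_rel_iff' := by
    rintro (g | q) (g' | q')
    · simp [GG, HH, split]
    · have hq := q'.isLt
      cases g <;> simp only [GG, HH, split, mat, base, Function.Embedding.coeFn_mk] <;>
        split_ifs <;> simp <;> omega
    · have hq := q.isLt
      cases g' <;> simp only [GG, HH, split, mat, base, Function.Embedding.coeFn_mk] <;>
        split_ifs <;> simp <;> omega
    · simp [GG, HH, split]

/-! ### `H_t` and `H_t'` have the same degrees -/

theorem deg_same {V : Type} [Fintype V] (H H' : SimpleGraph V) (v : V)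
    (h : ∀ w, H.Adj v w ↔ H'.Adj v w) : H.degree v = H'.degree v := by
  rw [← SimpleGraph.card_neighborFinset_eq_degree, ← SimpleGraph.card_neighborFinset_eq_degree]
  congr 1
  ext w; simp [h w]

theorem deg_swap {V : Type} [Fintype V] (H H' : SimpleGraph V) (v x y : V)
    (hx : H.Adj v x) (hy : ¬ H.Adj v y) (hx' : ¬ H'.Adj v x) (hy' : H'.Adj v y)
    (h : ∀ w, w ≠ x → w ≠ y → (H.Adj v w ↔ H'.Adj v w)) : H.degree v = H'.degree v := by
  rw [← SimpleGraph.card_neighborFinset_eq_degree, ← SimpleGraph.card_neighborFinset_eq_degree]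
  have e : H'.neighborFinset v = insert y ((H.neighborFinset v).erase x) := by
    ext w
    simp only [SimpleGraph.mem_neighborFinset, mem_insert, mem_erase]
    by_cases h1 : w = x
    · subst h1
      constructor
      · intro h; exact absurd h hx'
      · rintro (h | h)
        · exact absurd (h ▸ hy') hx'
        · exact absurd rfl h.1
    · by_cases h2 : w = y
      · subst h2; simp [hy']
      · simp [h1, h2, h w h1 h2]
  rw [e, card_insert_of_notMem (by simp [hy]), card_erase_of_mem (by simpa using hx)]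
  have : 0 < (H.neighborFinset v).card := card_pos.mpr ⟨x, by simpa using hx⟩
  omega

theorem deg_eq (t : ℕ) (v : VT t) : (HH false t).degree v = (HH true t).degree v := by
  rcases v with (g | s) | p
  · cases g with
    | i =>
      refine deg_swap _ _ _ (.inr ⟨0, by omega⟩) (.inr ⟨t + 5, by omega⟩) ?_ ?_ ?_ ?_ ?_
      · simp [HH, split, mat, base]
      · simp [HH, split, mat, base]
      · simp [HH, split, mat, base]
      · simp [HH, split, mat, base]
      · rintro ((g | s) | p) h1 h2
        · simp [HH, split]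
        · simp [HH, split]
        · simp only [ne_eq, Sum.inr.injEq, Fin.ext_iff] at h1 h2
          simp [HH, split, mat, base]
          omega
    | _ =>
      apply deg_same
      rintro ((g | s) | p) <;> simp [HH, split, mat, base]
  · have hs := s.isLt
    refine deg_swap _ _ _ (.inr ⟨extra t s, by unfold extra; split_ifs <;> omega⟩)
      (.inr ⟨miss s, by unfold miss; split_ifs <;> omega⟩) ?_ ?_ ?_ ?_ ?_
    · simp [HH, split, mat]
    · simp only [HH, split, mat, Bool.false_eq_true, if_false, ne_eq, not_true_eq_false,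
        and_false, false_or]
      unfold miss extra
      split_ifs <;> first | omega | simp
    · simp only [HH, split, mat, extra]
      simp only [if_true]
      split_ifs <;> omega
    · simp only [HH, split, mat, miss]
      simp only [if_true]
      split_ifs <;> omega
    · rintro ((g | s') | p) h1 h2
      · simp [HH, split]
      · simp [HH, split]
      · simp only [ne_eq, Sum.inr.injEq, Fin.ext_iff] at h1 h2
        simp only [HH, split, mat, Bool.false_eq_true, if_false, if_true]
        tauto
  · have hp := p.isLt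
    by_cases h0 : p.val = 0
    · refine deg_swap _ _ _ (.inl (.inl .i)) (.inl (.inr ⟨0, by omega⟩)) ?_ ?_ ?_ ?_ ?_
      · simp [HH, split, mat, base, h0]
      · simp only [HH, split, mat, h0, Bool.false_eq_true, if_false]
        unfold miss extra
        split_ifs <;> first | omega | simp
      · simp [HH, split, mat, base, h0]
      · simp [HH, split, mat, h0]
      · rintro ((g | s) | q) h1 h2
        · cases g <;> simp [HH, split, mat, base, h0]
          exact absurd rfl h1
        · simp only [ne_eq, Sum.inl.injEq, Sum.inr.injEq, Fin.ext_iff] at h2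
          simp only [HH, split, mat, miss, extra, h0, Bool.false_eq_true, if_false, if_true]
          split_ifs <;> omega
        · simp [HH, split]
    · by_cases h1 : 3 ≤ p.val ∧ p.val ≤ t + 2
      · refine deg_swap _ _ _ (.inl (.inr ⟨p.val - 3, by omega⟩))
          (.inl (.inr ⟨p.val - 2, by omega⟩)) ?_ ?_ ?_ ?_ ?_
        · simp only [HH, split, mat, miss, extra, Bool.false_eq_true, if_false]
          split_ifs <;> omega
        · simp only [HH, split, mat, miss, extra, Bool.false_eq_true, if_false]
          split_ifs <;> omega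
        · simp only [HH, split, mat, if_true]
          omega
        · simp only [HH, split, mat, if_true]
          omega
        · rintro ((g | s) | q) h2 h3
          · cases g <;> simp [HH, split, mat, base]
            omega
          · simp only [ne_eq, Sum.inl.injEq, Sum.inr.injEq, Fin.ext_iff] at h2 h3
            have hs := s.isLt
            simp only [HH, split, mat, miss, extra, Bool.false_eq_true, if_false, if_true]
            split_ifs <;> omega
          · simp [HH, split]
      · by_cases h5 : p.val = t + 5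
        · refine deg_swap _ _ _ (.inl (.inr ⟨t, by omega⟩)) (.inl (.inl .i)) ?_ ?_ ?_ ?_ ?_
          · simp [HH, split, mat, extra, h5]
          · simp [HH, split, mat, base, h5]
          · simp [HH, split, mat, h5]
          · simp [HH, split, mat, base, h5]
          · rintro ((g | s) | q) h2 h3
            · cases g <;> simp [HH, split, mat, base]
              exact absurd rfl h3
            · simp only [ne_eq, Sum.inl.injEq, Sum.inr.injEq, Fin.ext_iff] at h2
              have hs := s.isLt
              simp only [HH, split, mat, miss, extra, Bool.false_eq_true, if_false, if_true]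
              split_ifs <;> omega
            · simp [HH, split]
        · apply deg_same
          rintro ((g | s) | q)
          · cases g <;> simp [HH, split, mat, base]
            omega
          · have hs := s.isLt
            simp only [HH, split, mat, miss, extra, Bool.false_eq_true, if_false, if_true]
            split_ifs <;> omega
          · simp [HH, split]


/-! ### Cuts of `H_t` -/

/-- the standard length of a clique vertex -/
def rowlen (t : ℕ) : GRow ⊕ Fin (t + 1) → ℕ
  | .inl (.a _) => 2
  | .inl (.b _) => 2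
  | .inl .i => 3
  | .inl (.a' _) => t + 4
  | .inl (.b' _) => t + 4
  | .inr s => s.val + 3

/-- the potential of the cut `k` -/
noncomputable def pot (t k : ℕ) : VT t → ℤ
  | .inl r => if k ≤ rowlen t r then 1 else 0
  | .inr p => if p.val < k then 0 else -1

/-- the potential of the split partition -/
def pot0 (t : ℕ) : VT t → ℤ
  | .inl _ => 1
  | .inr _ => -1

/-- defects of `H_t` at the cut `k` -/
def bad (t k : ℕ) (r : GRow ⊕ Fin (t + 1)) (p : ℕ) : Prop :=
  (k ≤ rowlen t r ∧ p < k ∧ ¬ mat false t r p) ∨ (¬ k ≤ rowlen t r ∧ k ≤ p ∧ mat false t r p)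

theorem bad_unique {t k : ℕ} {r : GRow ⊕ Fin (t + 1)} {p : ℕ} (hk1 : 1 ≤ k) (hk2 : k ≤ t + 5)
    (h2 : k ≠ 2) (h4 : k ≠ t + 4) (hb : bad t k r p) :
    r = .inr ⟨min (k - 3) t, by omega⟩ ∧
      p = if k ≤ min (k - 3) t + 3 then miss (min (k - 3) t) else extra t (min (k - 3) t) := by
  rcases r with g | s
  · exfalso
    cases g <;> simp only [bad, rowlen, mat, base, Bool.false_eq_true, if_false] at hb <;> omega
  · have hs := s.isLt
    have key : s.val = min (k - 3) t := by
      simp only [bad, rowlen, mat, miss, extra, Bool.false_eq_true, if_false] at hb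
      split_ifs at hb <;> omega
    refine ⟨?_, ?_⟩
    · congr 1
      ext
      exact key
    · rw [← key]
      simp only [bad, rowlen, mat, miss, extra, Bool.false_eq_true, if_false] at hb
      unfold miss extra
      split_ifs at hb ⊢ <;> omega

section Cuts

variable {V : Type} [Fintype V] {t : ℕ} {ι : V → VT t}

theorem dd_H1 (hι : Function.Injective ι) (k : ℕ) (x y : V) :
    dd ((HH false t).comap ι) (pot t k ∘ ι) (x, y) ≤ 1 ∧
      (dd ((HH false t).comap ι) (pot t k ∘ ι) (x, y) ≠ 0 → ∃ r p, bad t k r p.val ∧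
        ((ι x = .inl r ∧ ι y = .inr p) ∨ (ι x = .inr p ∧ ι y = .inl r))) := by
  unfold dd
  by_cases hxy : x = y
  · simp [hxy]
  · have hne : ι x ≠ ι y := fun h => hxy (hι h)
    simp only [hxy, if_false, SimpleGraph.comap_adj, Function.comp_apply]
    rcases hx : ι x with r | p <;> rcases hy : ι y with r' | p'
    · rw [hx, hy] at hne
      have hrr : r ≠ r' := fun h => hne (by rw [h])
      simp only [HH, split, hrr, ne_eq, not_false_eq_true, if_true, pot]
      split_ifs <;> simp
    · simp only [HH, split, pot]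
      by_cases hm : mat false t r p'.val
      · simp only [hm, if_true]
        by_cases h1 : k ≤ rowlen t r <;> by_cases h2 : p'.val < k
        · simp [h1, h2]
        · simp [h1, h2]
        · simp [h1, h2]
        · simp only [h1, h2, if_false]
          refine ⟨by norm_num, fun _ => ⟨r, p', Or.inr ⟨h1, by omega, hm⟩, Or.inl ⟨rfl, rfl⟩⟩⟩
      · simp only [hm, if_false]
        by_cases h1 : k ≤ rowlen t r <;> by_cases h2 : p'.val < k
        · simp only [h1, h2, if_true]
          refine ⟨by norm_num, fun _ => ⟨r, p', Or.inl ⟨h1, h2, hm⟩, Or.inl ⟨rfl, rfl⟩⟩⟩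
        · simp [h1, h2]
        · simp [h1, h2]
        · simp [h1, h2]
    · simp only [HH, split, pot]
      by_cases hm : mat false t r' p.val
      · simp only [hm, if_true]
        by_cases h1 : k ≤ rowlen t r' <;> by_cases h2 : p.val < k
        · simp [h1, h2]
        · simp [h1, h2]
        · simp [h1, h2]
        · simp only [h1, h2, if_false]
          refine ⟨by norm_num, fun _ => ⟨r', p, Or.inr ⟨h1, by omega, hm⟩, Or.inr ⟨rfl, rfl⟩⟩⟩
      · simp only [hm, if_false]
        by_cases h1 : k ≤ rowlen t r' <;> by_cases h2 : p.val < k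
        · simp only [h1, h2, if_true]
          refine ⟨by norm_num, fun _ => ⟨r', p, Or.inl ⟨h1, h2, hm⟩, Or.inr ⟨rfl, rfl⟩⟩⟩
        · simp [h1, h2]
        · simp [h1, h2]
        · simp [h1, h2]
    · simp only [HH, split, pot, if_false]
      split_ifs <;> simp

theorem TD_le_two (hι : Function.Injective ι) {k : ℕ} (hk1 : 1 ≤ k) (hk2 : k ≤ t + 5)
    (h2 : k ≠ 2) (h4 : k ≠ t + 4) :
    ∑ p, dd ((HH false t).comap ι) (pot t k ∘ ι) p ≤ 2 := by
  set D := dd ((HH false t).comap ι) (pot t k ∘ ι) with hD
  set A : VT t := .inl (.inr ⟨min (k - 3) t, by omega⟩) with hA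
  have hlt : (if k ≤ min (k - 3) t + 3 then miss (min (k - 3) t) else
      extra t (min (k - 3) t)) < t + 6 := by
    unfold miss extra; split_ifs <;> omega
  set B : VT t := .inr ⟨_, hlt⟩ with hB
  have h1 : ∑ p, D p = ∑ p ∈ univ.filter (fun p => D p ≠ 0), D p :=
    (Finset.sum_filter_ne_zero _).symm
  rw [h1]
  have h3 : ∑ p ∈ univ.filter (fun p => D p ≠ 0), D p ≤
      ∑ p ∈ univ.filter (fun p => D p ≠ 0), (1 : ℤ) :=
    sum_le_sum fun p _ => (dd_H1 hι k p.1 p.2).1
  refine h3.trans ?_
  rw [sum_const, nsmul_eq_mul, mul_one]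
  have h5 : (univ.filter (fun p => D p ≠ 0)).card ≤ ({(A, B), (B, A)} : Finset (VT t × VT t)).card := by
    apply card_le_card_of_injOn (fun p => (ι p.1, ι p.2))
    · intro p hp
      have hp' : D p ≠ 0 := by simpa using hp
      obtain ⟨r, q, hb, h⟩ := (dd_H1 hι k p.1 p.2).2 hp'
      obtain ⟨e1, e2⟩ := bad_unique hk1 hk2 h2 h4 hb
      have e3 : (Sum.inl r : VT t) = A := by rw [hA, e1]
      have e4 : (Sum.inr q : VT t) = B := by rw [hB]; congr 1; ext; exact e2
      rcases h with ⟨a1, a2⟩ | ⟨a1, a2⟩
      · simp [a1, a2, e3, e4]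
      · simp [a1, a2, e3, e4]
    · intro p _ q _ h
      simp only [Prod.mk.injEq] at h
      exact Prod.ext (hι h.1) (hι h.2)
  have h6 : ({(A, B), (B, A)} : Finset (VT t × VT t)).card ≤ 2 := card_le_two
  exact_mod_cast h5.trans h6

theorem TD_zero (hι : Function.Injective ι) (s : Fin (t + 1))
    (hs : (Sum.inl (Sum.inr s) : VT t) ∉ Set.range ι) :
    ∑ p, dd ((HH false t).comap ι) (pot t (s.val + 3) ∘ ι) p = 0 := by
  apply sum_eq_zero
  rintro ⟨x, y⟩ _
  by_contra h
  obtain ⟨r, q, hb, h'⟩ := (dd_H1 hι (s.val + 3) x y).2 h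
  have hs' := s.isLt
  obtain ⟨e1, -⟩ := bad_unique (by omega) (by omega) (by omega) (by omega) hb
  apply hs
  have e2 : r = .inr s := by
    rw [e1]; congr 1; ext; simp only; omega
  rw [← e2]
  rcases h' with ⟨a1, a2⟩ | ⟨a1, a2⟩
  · exact ⟨x, a1⟩
  · exact ⟨y, a2⟩

theorem TD0 (hι : Function.Injective ι) :
    ∑ p, dd ((HH false t).comap ι) (pot0 t ∘ ι) p = 0 := by
  apply sum_eq_zero
  rintro ⟨x, y⟩ _
  unfold dd
  by_cases hxy : x = y
  · simp [hxy]
  · have hne : ι x ≠ ι y := fun h => hxy (hι h)
    simp only [hxy, if_false, SimpleGraph.comap_adj, Function.comp_apply]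
    rcases hx : ι x with r | p <;> rcases hy : ι y with r' | p'
    · rw [hx, hy] at hne
      have hrr : r ≠ r' := fun h => hne (by rw [h])
      simp [HH, split, hrr, pot0]
    · simp [HH, split, pot0]
    · simp [HH, split, pot0]
    · simp [HH, split, pot0]

end Cuts

theorem sum_ge_four {V : Type} [Fintype V] (Γ : SimpleGraph V) (f : V → ℤ) (u1 u2 z1 z2 : V)
    (h12 : u1 ≠ u2) (a1 : u1 ≠ z1) (a2 : u1 ≠ z2) (a3 : u2 ≠ z1) (a4 : u2 ≠ z2)
    (d1 : 1 ≤ dd Γ f (u1, z1)) (d1' : 1 ≤ dd Γ f (z1, u1)) (d2 : 1 ≤ dd Γ f (u2, z2))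
    (d2' : 1 ≤ dd Γ f (z2, u2)) : 4 ≤ ∑ p, dd Γ f p := by
  have hc : ({(u1, z1), (z1, u1), (u2, z2), (z2, u2)} : Finset (V × V)).card = 4 := by
    rw [card_insert_of_notMem, card_insert_of_notMem, card_insert_of_notMem, card_singleton]
    · simp [a4]
    · simp only [mem_insert, mem_singleton, Prod.mk.injEq, not_or, not_and]
      exact ⟨fun h => absurd h.symm a3, fun _ => h12⟩
    · simp only [mem_insert, mem_singleton, Prod.mk.injEq, not_or, not_and]
      exact ⟨fun h => absurd h a1, fun h => absurd h h12, fun h => absurd h a2⟩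
  calc (4 : ℤ) = ∑ p ∈ ({(u1, z1), (z1, u1), (u2, z2), (z2, u2)} : Finset (V × V)), 1 := by
        rw [sum_const, hc]; norm_num
    _ ≤ ∑ p ∈ ({(u1, z1), (z1, u1), (u2, z2), (z2, u2)} : Finset (V × V)), dd Γ f p := by
        apply sum_le_sum
        intro p hp
        simp only [mem_insert, mem_singleton] at hp
        rcases hp with rfl | rfl | rfl | rfl <;> assumption
    _ ≤ _ := sum_le_sum_of_subset_of_nonneg (subset_univ _) (fun p _ _ => dd_nonneg Γ f p)

theorem sum_ge_one {V : Type} [Fintype V] (Γ : SimpleGraph V) (f : V → ℤ) (u z : V)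
    (d1 : 1 ≤ dd Γ f (u, z)) : 1 ≤ ∑ p, dd Γ f p :=
  d1.trans (single_le_sum (fun p _ => dd_nonneg Γ f p) (mem_univ _))


/-- The heart of the proof: a graph with the degrees of an induced subgraph of `H_t` missing some
chain vertex does not induce `G`. -/
theorem heart {V : Type} [Fintype V] {t : ℕ} {ι : V → VT t} (hι : Function.Injective ι)
    (Γ : SimpleGraph V) (hdeg : ∀ v, Γ.degree v = ((HH false t).comap ι).degree v)
    (φ : GG ↪g Γ) (s : Fin (t + 1)) : (Sum.inl (Sum.inr s) : VT t) ∈ Set.range ι := by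
  by_contra hs
  have hTD := fun f => TD_eq Γ ((HH false t).comap ι) hdeg f
  have h0 : ∀ p, dd Γ (pot0 t ∘ ι) p = 0 := by
    have h := hTD (pot0 t ∘ ι)
    rw [TD0 hι] at h
    intro p
    exact (sum_eq_zero_iff_of_nonneg (fun p _ => dd_nonneg _ _ p)).mp h p (mem_univ _)
  have hrow : ∀ x y, x ≠ y → (∃ r, ι x = .inl r) → (∃ r, ι y = .inl r) → Γ.Adj x y := by
    rintro x y hne ⟨r, hx⟩ ⟨r', hy⟩
    by_contra hadj
    have := h0 (x, y)
    simp [dd, hne, hadj, hx, hy, pot0] at this
  have hcol : ∀ x y, x ≠ y → (∃ p, ι x = .inr p) → (∃ p, ι y = .inr p) → ¬ Γ.Adj x y := by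
    rintro x y hne ⟨r, hx⟩ ⟨r', hy⟩ hadj
    have := h0 (x, y)
    simp [dd, hne, hadj, hx, hy, pot0] at this
  have hor : ∀ x, (∃ r, ι x = .inl r) ∨ (∃ p, ι x = .inr p) := by
    intro x
    rcases ι x with r | p
    · exact Or.inl ⟨r, rfl⟩
    · exact Or.inr ⟨p, rfl⟩
  have hR : ∀ κ : GRow, ∃ r, ι (φ (.inl κ)) = .inl r := by
    intro κ
    rcases hor (φ (.inl κ)) with h | h
    · exact h
    · exfalso
      have h2 : ∃ c1 c2 : Fin 6, c1 ≠ c2 ∧ GG.Adj (.inl κ) (.inr c1) ∧ GG.Adj (.inl κ) (.inr c2) := by
        cases κ with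
        | a e => exact ⟨0, 1, by decide, Or.inl rfl, Or.inr rfl⟩
        | b e => exact ⟨0, 2, by decide, Or.inl rfl, Or.inr rfl⟩
        | i => exact ⟨1, 2, by decide, Or.inl rfl, Or.inr (Or.inl rfl)⟩
        | a' e => exact ⟨0, 1, by decide, by simp [GG, split, base], by simp [GG, split, base]⟩
        | b' e => exact ⟨0, 1, by decide, by simp [GG, split, base], by simp [GG, split, base]⟩
      obtain ⟨c1, c2, hne, e1, e2⟩ := h2
      have f1 := φ.map_rel_iff.mpr e1
      have f2 := φ.map_rel_iff.mpr e2
      have hc : ∀ c : Fin 6, Γ.Adj (φ (.inl κ)) (φ (.inr c)) → ∃ r, ι (φ (.inr c)) = .inl r := by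
        intro c hadj
        rcases hor (φ (.inr c)) with h' | h'
        · exact h'
        · exact absurd hadj (hcol _ _ hadj.ne h h')
      have g1 := hrow (φ (.inr c1)) (φ (.inr c2)) (fun h => hne (by
        have := φ.injective h; simpa using this)) (hc c1 f1) (hc c2 f2)
      have g2 := φ.map_rel_iff.mp g1
      exact g2
  have hC : ∀ c : Fin 6, ∃ p, ι (φ (.inr c)) = .inr p := by
    intro c
    rcases hor (φ (.inr c)) with h | h
    · exfalso
      have h2 : ∃ κ : GRow, ¬ GG.Adj (.inl κ) (.inr c) := by
        fin_cases c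
        · exact ⟨.i, by simp [GG, split, base]⟩
        · exact ⟨.b true, by simp [GG, split, base]⟩
        · exact ⟨.a true, by simp [GG, split, base]⟩
        · exact ⟨.a true, by simp [GG, split, base]⟩
        · exact ⟨.a true, by simp [GG, split, base]⟩
        · exact ⟨.a true, by simp [GG, split, base]⟩
      obtain ⟨κ, hκ⟩ := h2
      apply hκ
      apply φ.map_rel_iff.mp
      refine hrow _ _ ?_ (hR κ) h
      intro h
      have := φ.injective h
      simp at this
    · exact h
  choose R hR using hR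
  choose P hP using hC
  have hPinj : ∀ c c', (P c).val = (P c').val → c = c' := by
    intro c c' h
    have h1 : P c = P c' := Fin.ext h
    have h2 : ι (φ (.inr c)) = ι (φ (.inr c')) := by rw [hP, hP, h1]
    have h3 := φ.injective (hι h2)
    simpa using h3
  -- crossing rows give defects
  have cross : ∀ (κ : GRow) (u w : Fin 6) (k : ℕ), ¬ GG.Adj (.inl κ) (.inr u) →
      GG.Adj (.inl κ) (.inr w) → (P u).val < k → k ≤ (P w).val →
      ∃ c : Fin 6, 1 ≤ dd Γ (pot t k ∘ ι) (φ (.inl κ), φ (.inr c)) ∧
        1 ≤ dd Γ (pot t k ∘ ι) (φ (.inr c), φ (.inl κ)) := by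
    intro κ u w k hu hw h1 h2
    have hne : ∀ c : Fin 6, φ (.inl κ) ≠ φ (.inr c) := fun c h => by
      have := φ.injective h
      simp at this
    by_cases hk : k ≤ rowlen t (R κ)
    · have hu' : ¬ Γ.Adj (φ (.inl κ)) (φ (.inr u)) := fun h => hu (φ.map_rel_iff.mp h)
      have hu'' : ¬ Γ.Adj (φ (.inr u)) (φ (.inl κ)) := fun h => hu' h.symm
      refine ⟨u, ?_, ?_⟩
      · simp [dd, hne u, hu', hR, hP, pot, hk, h1]
      · simp [dd, (hne u).symm, hu'', hR, hP, pot, hk, h1]
    · have hw' : Γ.Adj (φ (.inl κ)) (φ (.inr w)) := φ.map_rel_iff.mpr hw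
      refine ⟨w, ?_, ?_⟩
      · simp [dd, hne w, hw', hR, hP, pot, hk, not_lt.mpr h2]
      · simp [dd, (hne w).symm, hw'.symm, hR, hP, pot, hk, not_lt.mpr h2]
  have neRC : ∀ (κ : GRow) (c : Fin 6), φ (.inl κ) ≠ φ (.inr c) := fun κ c h => by
    have := φ.injective h
    simp at this
  have two : ∀ (κ₁ κ₂ : GRow) (u w : Fin 6) (k : ℕ), κ₁ ≠ κ₂ → ¬ GG.Adj (.inl κ₁) (.inr u) →
      GG.Adj (.inl κ₁) (.inr w) → ¬ GG.Adj (.inl κ₂) (.inr u) →
      GG.Adj (.inl κ₂) (.inr w) → (P u).val < k → k ≤ (P w).val → k = 2 ∨ k = t + 4 := by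
    intro κ₁ κ₂ u w k hne a1 a2 b1 b2 h1 h2
    by_contra hcon
    rw [not_or] at hcon
    have hw := (P w).isLt
    have hle := TD_le_two hι (k := k) (by omega) (by omega) hcon.1 hcon.2
    rw [← hTD] at hle
    obtain ⟨z1, d1, d1'⟩ := cross κ₁ u w k a1 a2 h1 h2
    obtain ⟨z2, d2, d2'⟩ := cross κ₂ u w k b1 b2 h1 h2
    have := sum_ge_four Γ (pot t k ∘ ι) (φ (.inl κ₁)) (φ (.inl κ₂)) (φ (.inr z1)) (φ (.inr z2))
      (fun h => hne (by have := φ.injective h; simpa using this)) (neRC _ _) (neRC _ _)
      (neRC _ _) (neRC _ _) d1 d1' d2 d2'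
    omega
  have one : ∀ (κ : GRow) (u w : Fin 6), ¬ GG.Adj (.inl κ) (.inr u) →
      GG.Adj (.inl κ) (.inr w) → (P u).val < s.val + 3 → ¬ s.val + 3 ≤ (P w).val := by
    intro κ u w a1 a2 h1 h2
    obtain ⟨z, d, -⟩ := cross κ u w _ a1 a2 h1 h2
    have h3 := sum_ge_one Γ _ _ _ d
    rw [hTD, TD_zero hι s hs] at h3
    omega
  have hs' := s.isLt
  have pair12 : ((P 1).val = 1 ∧ (P 2).val = 2) ∨ ((P 1).val = 2 ∧ (P 2).val = 1) ∨
      ((P 1).val = t + 3 ∧ (P 2).val = t + 4) ∨ ((P 1).val = t + 4 ∧ (P 2).val = t + 3) := by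
    have n1 : (P 1).val ≠ (P 2).val := fun h => absurd (hPinj 1 2 h) (by decide)
    have A : ∀ k, (P 1).val < k → k ≤ (P 2).val → k = 2 ∨ k = t + 4 := fun k =>
      two (.b true) (.b false) 1 2 k (by decide) (by simp [GG, split, base])
        (by simp [GG, split, base]) (by simp [GG, split, base]) (by simp [GG, split, base])
    have B : ∀ k, (P 2).val < k → k ≤ (P 1).val → k = 2 ∨ k = t + 4 := fun k =>
      two (.a true) (.a false) 2 1 k (by decide) (by simp [GG, split, base])
        (by simp [GG, split, base]) (by simp [GG, split, base]) (by simp [GG, split, base])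
    rcases lt_or_gt_of_ne n1 with h | h
    · have a1 := A ((P 1).val + 1) (by omega) (by omega)
      by_cases h2 : (P 1).val + 2 ≤ (P 2).val
      · have a2 := A ((P 1).val + 2) (by omega) h2
        omega
      · omega
    · have a1 := B ((P 2).val + 1) (by omega) (by omega)
      by_cases h2 : (P 2).val + 2 ≤ (P 1).val
      · have a2 := B ((P 2).val + 2) (by omega) h2
        omega
      · omega
  have pair34 : ((P 3).val = 1 ∧ (P 4).val = 2) ∨ ((P 3).val = 2 ∧ (P 4).val = 1) ∨
      ((P 3).val = t + 3 ∧ (P 4).val = t + 4) ∨ ((P 3).val = t + 4 ∧ (P 4).val = t + 3) := by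
    have n1 : (P 3).val ≠ (P 4).val := fun h => absurd (hPinj 3 4 h) (by decide)
    have A : ∀ k, (P 3).val < k → k ≤ (P 4).val → k = 2 ∨ k = t + 4 := fun k =>
      two (.b' true) (.b' false) 3 4 k (by decide) (by simp [GG, split, base])
        (by simp [GG, split, base]) (by simp [GG, split, base]) (by simp [GG, split, base])
    have B : ∀ k, (P 4).val < k → k ≤ (P 3).val → k = 2 ∨ k = t + 4 := fun k =>
      two (.a' true) (.a' false) 4 3 k (by decide) (by simp [GG, split, base])
        (by simp [GG, split, base]) (by simp [GG, split, base]) (by simp [GG, split, base])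
    rcases lt_or_gt_of_ne n1 with h | h
    · have a1 := A ((P 3).val + 1) (by omega) (by omega)
      by_cases h2 : (P 3).val + 2 ≤ (P 4).val
      · have a2 := A ((P 3).val + 2) (by omega) h2
        omega
      · omega
    · have a1 := B ((P 4).val + 1) (by omega) (by omega)
      by_cases h2 : (P 4).val + 2 ≤ (P 3).val
      · have a2 := B ((P 4).val + 2) (by omega) h2
        omega
      · omega
  have n13 : (P 1).val ≠ (P 3).val := fun h => absurd (hPinj 1 3 h) (by decide)
  have n14 : (P 1).val ≠ (P 4).val := fun h => absurd (hPinj 1 4 h) (by decide)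
  have n23 : (P 2).val ≠ (P 3).val := fun h => absurd (hPinj 2 3 h) (by decide)
  have n24 : (P 2).val ≠ (P 4).val := fun h => absurd (hPinj 2 4 h) (by decide)
  by_cases hcase : (P 1).val < s.val + 3
  · -- positions 1, 2 on the left, 3, 4 on the right
    have c2 : (P 2).val < s.val + 3 := by omega
    have c3 : s.val + 3 ≤ (P 3).val := by omega
    have c5 : s.val + 3 ≤ (P 5).val := by
      by_contra h
      exact one (.a' true) 5 3 (by simp [GG, split, base]) (by simp [GG, split, base])
        (by omega) c3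
    have c0 : (P 0).val < s.val + 3 := by
      by_contra h
      exact one (.a true) 2 0 (by simp [GG, split, base]) (by simp [GG, split, base])
        c2 (by omega)
    exact one .i 0 5 (by simp [GG, split, base]) (by simp [GG, split, base]) c0 c5
  · have c3 : (P 3).val < s.val + 3 := by omega
    exact one (.a true) 3 1 (by simp [GG, split, base]) (by simp [GG, split, base]) c3 (by omega)


/-! ### Relabelling -/

theorem degree_comap {V W : Type} (e : V ≃ W) (Γ : SimpleGraph W)
    (v : V) [Fintype ((Γ.comap e).neighborSet v)] [Fintype (Γ.neighborSet (e v))] :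
    (Γ.comap e).degree v = Γ.degree (e v) := by
  rw [← SimpleGraph.card_neighborFinset_eq_degree, ← SimpleGraph.card_neighborFinset_eq_degree]
  refine Finset.card_bij (fun w _ => e w) ?_ ?_ ?_
  · intro w hw
    simpa using hw
  · intro w _ w' _ h
    exact e.injective h
  · intro w hw
    refine ⟨e.symm w, ?_, by simp⟩
    simpa using hw

theorem degSeq_comap {V W : Type} [Fintype V] [Fintype W] (e : V ≃ W) (Γ : SimpleGraph W) :
    degSeq (Γ.comap e) = degSeq Γ := by
  unfold degSeq
  congr 1
  simp only [degree_comap]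
  conv_rhs => rw [← Finset.map_univ_equiv e, Finset.map_val, Multiset.map_map]
  rfl

theorem exists_equiv_of_map {V : Type} [Fintype V] (f g : V → ℕ)
    (h : (Finset.univ : Finset V).val.map f = (Finset.univ : Finset V).val.map g) :
    ∃ e : V ≃ V, ∀ v, f (e v) = g v := by
  have hc : ∀ n, Fintype.card {v // g v = n} = Fintype.card {v // f v = n} := by
    intro n
    have h1 : ∀ k : V → ℕ, Fintype.card {v // k v = n} =
        Multiset.count n ((Finset.univ : Finset V).val.map k) := by
      intro k
      rw [Fintype.card_subtype, Multiset.count_map]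
      rw [Finset.card_def, Finset.filter_val]
      congr 1
      refine Multiset.filter_congr fun x _ => ?_
      exact eq_comm
    rw [h1, h1, h]
  have he : ∀ n, Nonempty ({v // g v = n} ≃ {v // f v = n}) := fun n =>
    ⟨Fintype.equivOfCardEq (hc n)⟩
  let en := fun n => (he n).some
  refine ⟨(Equiv.sigmaFiberEquiv g).symm.trans ((Equiv.sigmaCongrRight en).trans
    (Equiv.sigmaFiberEquiv f)), fun v => ?_⟩
  exact (en (g v) ⟨v, rfl⟩).2

theorem degSeq_eq_iff {V : Type} [Fintype V] (H H' : SimpleGraph V) (h : degSeq H = degSeq H') :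
    (Finset.univ : Finset V).val.map (fun v => H.degree v) =
      (Finset.univ : Finset V).val.map (fun v => H'.degree v) := by
  unfold degSeq at h
  have := congrArg (fun l : List ℕ => (l : Multiset ℕ)) h
  simpa using this

theorem degSeq_of_degree {V : Type} [Fintype V] (H H' : SimpleGraph V)
    (h : ∀ v, H.degree v = H'.degree v) : degSeq H = degSeq H' := by
  unfold degSeq
  simp only [h]

theorem InP_comap {α V W : Type} [Fintype V] [Fintype W] (e : V ≃ W) (G : SimpleGraph α)
    (H : SimpleGraph W) (h : InP G H) : InP G (H.comap e) := by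
  obtain ⟨Γ, h1, ⟨φ⟩⟩ := h
  refine ⟨Γ.comap e, by rw [degSeq_comap, degSeq_comap, h1], ⟨φ.trans ?_⟩⟩
  exact (SimpleGraph.Iso.comap e Γ).symm.toEmbedding

theorem degree_inst {V : Type} (H : SimpleGraph V) (v : V) (i₁ i₂ : Fintype (H.neighborSet v)) :
    @SimpleGraph.degree V H v i₁ = @SimpleGraph.degree V H v i₂ := by
  rw [Subsingleton.elim i₁ i₂]

theorem heart_two {V : Type} [Fintype V] {t : ℕ} {ι : V → VT t} (hι : Function.Injective ι)
    (h : InP GG ((HH false t).comap ι)) (s : Fin (t + 1)) :
    (Sum.inl (Sum.inr s) : VT t) ∈ Set.range ι := by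
  obtain ⟨Γ, h1, ⟨φ⟩⟩ := h
  obtain ⟨e, he⟩ := exists_equiv_of_map _ _ (degSeq_eq_iff _ _ h1)
  refine heart hι (Γ.comap e) (fun v => ?_) (φ.trans (SimpleGraph.Iso.comap e Γ).symm.toEmbedding) s
  rw [degree_comap, he v]
  exact degree_inst _ _ _ _

/-- `H_t` is in `P(G)`. -/
theorem HH_inP (t : ℕ) : InP GG (HH false t) :=
  ⟨HH true t, degSeq_of_degree _ _ (fun v => (deg_eq t v).symm), ⟨embGG t⟩⟩

theorem GG_transfer {V : Type} [Fintype V] {k : ℕ} (e : Fin k ≃ GRow ⊕ Fin 6)
    (H : SimpleGraph V) : InP (GG.comap e) H ↔ InP GG H := by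
  constructor
  · rintro ⟨Γ, h1, ⟨φ⟩⟩
    exact ⟨Γ, h1, ⟨(SimpleGraph.Iso.comap e GG).symm.toEmbedding.trans φ⟩⟩
  · rintro ⟨Γ, h1, ⟨φ⟩⟩
    exact ⟨Γ, h1, ⟨(SimpleGraph.Iso.comap e GG).toEmbedding.trans φ⟩⟩

/-- **Main theorem (negative answer to Q1).**  There is a graph `G` (on 15 vertices) such that
`D(G)` contains graphs of infinitely many different orders; in particular it contains infinitely
many pairwise non-isomorphic graphs. -/
theorem result : ∃ G : SimpleGraph (Fin 15),
    {n : ℕ | ∃ H : SimpleGraph (Fin n), InD G H}.Infinite := by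
  have hcard : Fintype.card (GRow ⊕ Fin 6) = 15 := by rw [Fintype.card_sum]; rfl
  let e0 : Fin 15 ≃ GRow ⊕ Fin 6 := (Fintype.equivFinOfCardEq hcard).symm
  refine ⟨GG.comap e0, ?_⟩
  rw [Set.infinite_iff_exists_gt]
  intro N
  set t := N with ht
  -- minimal order of a member of `P(G)` induced in `H_t`
  let Q : ℕ → Prop := fun m => ∃ ι : Fin m → VT t, Function.Injective ι ∧
    InP GG ((HH false t).comap ι)
  have hQ : ∃ m, Q m := by
    refine ⟨Fintype.card (VT t), (Fintype.equivFin (VT t)).symm, Equiv.injective _, ?_⟩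
    exact InP_comap (Fintype.equivFin (VT t)).symm GG _ (HH_inP t)
  obtain ⟨n, ⟨ι, hι, hP⟩, hmin⟩ : ∃ n, Q n ∧ ∀ m < n, ¬ Q m :=
    ⟨Nat.find hQ, Nat.find_spec hQ, fun m hm => Nat.find_min hQ hm⟩
  refine ⟨n, ⟨(HH false t).comap ι, ?_, ?_⟩, ?_⟩
  · rw [GG_transfer]; exact hP
  · intro W hW hcon
    rw [GG_transfer] at hcon
    have hlt : Fintype.card W < n := by
      have : Fintype.card W < Fintype.card (Fin n) := by
        apply Fintype.card_lt_of_injective_not_surjective (fun x : W => (x : Fin n))
          Subtype.val_injective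
        intro hsurj
        apply hW
        ext x
        simp only [Set.mem_univ, iff_true]
        obtain ⟨y, hy⟩ := hsurj x
        rw [← hy]; exact y.2
      simpa using this
    apply hmin _ hlt
    let e : Fin (Fintype.card W) ≃ W := (Fintype.equivFin W).symm
    refine ⟨fun x => ι (e x), fun x y h => e.injective (Subtype.ext (hι h)), ?_⟩
    have := InP_comap e GG _ hcon
    exact this
  · have h1 := heart_two hι hP
    have h2 : t + 1 ≤ n := by
      have h3 : ∀ s : Fin (t + 1), ∃ x : Fin n, ι x = .inl (.inr s) := fun s => h1 s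
      choose x hx using h3
      have hinj : Function.Injective x := by
        intro s s' h
        have h4 : (Sum.inl (Sum.inr s) : VT t) = .inl (.inr s') := by rw [← hx, ← hx, h]
        simpa using h4
      simpa using Fintype.card_le_of_injective x hinj
    omega

end Pool.Agent.Results.MP_a83c81_co.InfiniteMinimal
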